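import Mathlib

set_option autoImplicit false

open Filter Topology

namespace Pool.Agent.Helper90.HBasis

/-- Enumeration of pairs `(k, i)` with `i < m k`. -/
def blk (m : ℕ → ℕ) : ℕ → ℕ × ℕ
  | 0 => (0, 0)
  | (n + 1) => if (blk m n).2 + 1 < m (blk m n).1 then ((blk m n).1, (blk m n).2 + 1)
      else ((blk m n).1 + 1, 0)

theorem blk_lt {m : ℕ → ℕ} (hm : ∀ k, 0 < m k) (n : ℕ) : (blk m n).2 < m (blk m n).1 := by
  induction n with
  | zero => exact hm 0
  | succ n ih =>
    rw [blk]
    split_ifs with h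
    · exact h
    · exact hm _

theorem blk_sum {G : Type*} [AddCommMonoid G] {m : ℕ → ℕ} (hm : ∀ k, 0 < m k)
    (g : ℕ → ℕ → G) (N : ℕ) :
    ∑ n ∈ Finset.range N, g (blk m n).1 (blk m n).2 =
      ∑ l ∈ Finset.range (blk m N).1, ∑ i ∈ Finset.range (m l), g l i +
        ∑ i ∈ Finset.range (blk m N).2, g (blk m N).1 i := by
  induction N with
  | zero => simp [blk]
  | succ N ih =>
    rw [Finset.sum_range_succ, ih]
    have hlt := blk_lt hm N
    rw [show blk m (N + 1) = if (blk m N).2 + 1 < m (blk m N).1 then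
      ((blk m N).1, (blk m N).2 + 1) else ((blk m N).1 + 1, 0) from rfl]
    split_ifs with h
    · simp only
      rw [Finset.sum_range_succ _ (blk m N).2, add_assoc]
    · have he : m (blk m N).1 = (blk m N).2 + 1 := by omega
      simp only [Finset.range_zero, Finset.sum_empty, add_zero]
      rw [Finset.sum_range_succ _ (blk m N).1, he, Finset.sum_range_succ _ (blk m N).2, add_assoc]

theorem blk_eq {m : ℕ → ℕ} (hm : ∀ k, 0 < m k) (N : ℕ) :
    N = ∑ l ∈ Finset.range (blk m N).1, m l + (blk m N).2 := by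
  have h := blk_sum hm (fun _ _ => 1) N
  simpa using h

theorem blk_injective {m : ℕ → ℕ} (hm : ∀ k, 0 < m k) : Function.Injective (blk m) := by
  intro a b h
  rw [blk_eq hm a, blk_eq hm b, h]

theorem blk_fst_tendsto {m : ℕ → ℕ} (hm : ∀ k, 0 < m k) :
    Tendsto (fun n => (blk m n).1) atTop atTop := by
  rw [tendsto_atTop]
  intro K
  filter_upwards [eventually_ge_atTop (∑ l ∈ Finset.range K, m l)] with n hn
  by_contra hlt
  rw [not_le] at hlt
  have h1 := blk_eq hm n
  have h2 := blk_lt hm n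
  have h3 : ∑ l ∈ Finset.range ((blk m n).1 + 1), m l ≤ ∑ l ∈ Finset.range K, m l :=
    Finset.sum_le_sum_of_subset (Finset.range_subset_range.2 hlt)
  rw [Finset.sum_range_succ] at h3
  omega

/-- Gluing finite blocks. -/
theorem glue {W : Type*} [NormedAddCommGroup W] [NormedSpace ℂ W] {m : ℕ → ℕ}
    (hm : ∀ k, 0 < m k) (u : ℕ → ℕ → W) (φ : ℕ → ℕ → W →L[ℂ] ℂ)
    (bi : ∀ k l i j, i < m k → j < m l → φ k i (u l j) = if k = l ∧ i = j then 1 else 0)
    (M : ℝ) (hM : ∀ k r, r ≤ m k → ∀ w, ‖∑ i ∈ Finset.range r, φ k i w • u k i‖ ≤ M * ‖w‖)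
    (w : W) (hw : Tendsto (fun k => ∑ l ∈ Finset.range k, ∑ i ∈ Finset.range (m l),
      φ l i w • u l i) atTop (𝓝 w)) :
    Tendsto (fun N => ∑ n ∈ Finset.range N,
      φ (blk m n).1 (blk m n).2 w • u (blk m n).1 (blk m n).2) atTop (𝓝 w) := by
  set P : ℕ → W := fun k => ∑ l ∈ Finset.range k, ∑ i ∈ Finset.range (m l), φ l i w • u l i
    with hP
  have key : ∀ N, ∑ n ∈ Finset.range N,
      φ (blk m n).1 (blk m n).2 w • u (blk m n).1 (blk m n).2 =
      P (blk m N).1 + ∑ i ∈ Finset.range (blk m N).2,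
        φ (blk m N).1 i (P ((blk m N).1 + 1) - P (blk m N).1) • u (blk m N).1 i := by
    intro N
    rw [blk_sum hm (fun k i => φ k i w • u k i) N]
    congr 1
    refine Finset.sum_congr rfl ?_
    intro i hi
    have hi' : i < m (blk m N).1 := lt_trans (Finset.mem_range.1 hi) (blk_lt hm N)
    congr 1
    rw [hP]
    simp only
    rw [Finset.sum_range_succ, add_sub_cancel_left, map_sum, Finset.sum_eq_single i]
    · rw [map_smul, bi _ _ _ _ hi' hi']
      simp
    · intro j hj hne
      rw [map_smul, bi _ _ _ _ hi' (Finset.mem_range.1 hj), if_neg, smul_zero]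
      rintro ⟨-, h⟩
      exact hne h.symm
    · intro h
      exact absurd (Finset.mem_range.2 hi') h
  have hT := blk_fst_tendsto hm
  have h1 : Tendsto (fun N => P (blk m N).1) atTop (𝓝 w) := hw.comp hT
  have h2 : Tendsto (fun N => P ((blk m N).1 + 1) - P (blk m N).1) atTop (𝓝 0) := by
    have h3 : Tendsto (fun N => P ((blk m N).1 + 1)) atTop (𝓝 w) :=
      (hw.comp (tendsto_add_atTop_nat 1)).comp hT
    simpa using h3.sub h1
  have h4 : Tendsto (fun N => ∑ i ∈ Finset.range (blk m N).2,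
      φ (blk m N).1 i (P ((blk m N).1 + 1) - P (blk m N).1) • u (blk m N).1 i) atTop (𝓝 0) := by
    refine squeeze_zero_norm (fun N => hM _ _ (blk_lt hm N).le _) ?_
    simpa using (h2.norm.const_mul M)
  have h5 := h1.add h4
  rw [add_zero] at h5
  refine h5.congr ?_
  intro N
  exact (key N).symm

end Pool.Agent.Helper90.HBasis
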