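import Mathlib

set_option autoImplicit false
set_option linter.unusedSectionVars false

open Filter Topology

namespace Pool.Agent.Helper90.HBasis

variable {X : Type} [NormedAddCommGroup X] [NormedSpace ℂ X]

/-- `ℓ₁(X)`. -/
abbrev L1 (X : Type) [NormedAddCommGroup X] : Type := lp (fun _ : ℕ => X) 1

theorem summable_L1 (y : L1 X) : Summable fun n => ‖y n‖ := by
  have h := (lp.memℓp y).summable (by norm_num)
  simpa using h

theorem norm_L1 (y : L1 X) : ‖y‖ = ∑' n, ‖y n‖ := by
  rw [lp.norm_eq_tsum_rpow (by norm_num) y]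
  simp

theorem memℓ1 {f : ℕ → X} (h : Summable fun n => ‖f n‖) : Memℓp (E := fun _ : ℕ => X) f 1 := by
  refine memℓp_gen ?_
  simpa using h

/-- Precomposition with an injective map. -/
noncomputable def preL (σ : ℕ → ℕ) (hσ : Function.Injective σ) : L1 X →L[ℂ] L1 X :=
  LinearMap.mkContinuous
    { toFun := fun y => ⟨fun n => y (σ n), memℓ1 ((summable_L1 y).comp_injective hσ)⟩
      map_add' := fun y z => by
        ext n
        simp only [lp.coeFn_add, Pi.add_apply]
      map_smul' := fun c y => by
        ext n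
        simp only [lp.coeFn_smul, Pi.smul_apply, RingHom.id_apply] } 1 (fun y => by
      rw [one_mul, norm_L1, norm_L1 y]
      exact tsum_comp_le_tsum_of_inj (summable_L1 y) (fun n => norm_nonneg _) hσ)

theorem preL_apply (σ : ℕ → ℕ) (hσ : Function.Injective σ) (y : L1 X) (n : ℕ) :
    preL σ hσ y n = y (σ n) := rfl

theorem summable_extend {σ : ℕ → ℕ} (hσ : Function.Injective σ) (y : L1 X) :
    Summable fun n => ‖Function.extend σ (fun k => y k) 0 n‖ := by
  have h : (fun n => ‖Function.extend σ (fun k => y k) 0 n‖) =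
      Function.extend σ (fun k => ‖y k‖) 0 := by
    funext n
    by_cases hn : ∃ k, σ k = n
    · obtain ⟨k, rfl⟩ := hn
      rw [hσ.extend_apply, hσ.extend_apply]
    · rw [Function.extend_apply' _ _ _ hn, Function.extend_apply' _ _ _ hn]
      simp
  rw [h]
  refine (Function.Injective.summable_iff hσ ?_).1 ?_
  · intro n hn
    rw [Function.extend_apply']
    · rfl
    · rintro ⟨k, hk⟩
      exact hn ⟨k, hk⟩
  · refine (summable_L1 y).congr ?_
    intro k
    simp only [Function.comp]
    rw [hσ.extend_apply]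

/-- Extension by zero along an injective map. -/
noncomputable def pushL (σ : ℕ → ℕ) (hσ : Function.Injective σ) : L1 X →L[ℂ] L1 X :=
  LinearMap.mkContinuous
    { toFun := fun y => ⟨Function.extend σ (fun k => y k) 0, memℓ1 (summable_extend hσ y)⟩
      map_add' := fun y z => by
        ext n
        change Function.extend σ (fun k => (y + z) k) 0 n =
          Function.extend σ (fun k => y k) 0 n + Function.extend σ (fun k => z k) 0 n
        by_cases hn : ∃ k, σ k = n
        · obtain ⟨k, rfl⟩ := hn
          rw [hσ.extend_apply, hσ.extend_apply, hσ.extend_apply]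
          simp only [lp.coeFn_add, Pi.add_apply]
        · rw [Function.extend_apply' _ _ _ hn, Function.extend_apply' _ _ _ hn,
            Function.extend_apply' _ _ _ hn]
          simp
      map_smul' := fun c y => by
        ext n
        change Function.extend σ (fun k => (c • y) k) 0 n =
          c • Function.extend σ (fun k => y k) 0 n
        by_cases hn : ∃ k, σ k = n
        · obtain ⟨k, rfl⟩ := hn
          rw [hσ.extend_apply, hσ.extend_apply]
          simp only [lp.coeFn_smul, Pi.smul_apply]
        · rw [Function.extend_apply' _ _ _ hn, Function.extend_apply' _ _ _ hn]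
          simp } 1 (fun y => by
      rw [one_mul, norm_L1, norm_L1 y]
      have h : (fun n => ‖Function.extend σ (fun k => y k) 0 n‖) =
          Function.extend σ (fun k => ‖y k‖) 0 := by
        funext n
        by_cases hn : ∃ k, σ k = n
        · obtain ⟨k, rfl⟩ := hn
          rw [hσ.extend_apply, hσ.extend_apply]
        · rw [Function.extend_apply' _ _ _ hn, Function.extend_apply' _ _ _ hn]
          simp
      change ∑' n, ‖Function.extend σ (fun k => y k) 0 n‖ ≤ _
      rw [h, tsum_extend_zero hσ])

theorem pushL_apply (σ : ℕ → ℕ) (hσ : Function.Injective σ) (y : L1 X) (n : ℕ) :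
    pushL σ hσ y (σ n) = y n := by
  change Function.extend σ (fun k => y k) 0 (σ n) = y n
  rw [hσ.extend_apply]

theorem pushL_apply' (σ : ℕ → ℕ) (hσ : Function.Injective σ) (y : L1 X) (n : ℕ)
    (hn : ¬ ∃ k, σ k = n) : pushL σ hσ y n = 0 := by
  change Function.extend σ (fun k => y k) 0 n = 0
  rw [Function.extend_apply' _ _ _ hn]
  rfl

/-- Diagonal operators. -/
noncomputable def diagL (D : ℕ → X →L[ℂ] X) (C : ℝ) (hD : ∀ n x, ‖D n x‖ ≤ C * ‖x‖) :
    L1 X →L[ℂ] L1 X :=
  LinearMap.mkContinuous
    { toFun := fun y => ⟨fun n => D n (y n), memℓ1 (Summable.of_nonneg_of_le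
        (fun n => norm_nonneg _) (fun n => hD n (y n)) ((summable_L1 y).mul_left C))⟩
      map_add' := fun y z => by
        ext n
        simp only [lp.coeFn_add, Pi.add_apply, map_add]
      map_smul' := fun c y => by
        ext n
        simp only [lp.coeFn_smul, Pi.smul_apply, map_smul, RingHom.id_apply] } C (fun y => by
      rw [norm_L1, norm_L1 y, ← tsum_mul_left]
      exact Summable.tsum_le_tsum (fun n => hD n (y n)) (Summable.of_nonneg_of_le
        (fun n => norm_nonneg _) (fun n => hD n (y n)) ((summable_L1 y).mul_left C))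
        ((summable_L1 y).mul_left C))

theorem diagL_apply (D : ℕ → X →L[ℂ] X) (C : ℝ) (hD : ∀ n x, ‖D n x‖ ≤ C * ‖x‖) (y : L1 X)
    (n : ℕ) : diagL D C hD y n = D n (y n) := rfl

/-- The shift `(k, l) ↦ (k, l + 1)` in the pairing coordinates. -/
def sh (n : ℕ) : ℕ := Nat.pair n.unpair.1 (n.unpair.2 + 1)

/-- The first row in the pairing coordinates. -/
def dd (n : ℕ) : ℕ := Nat.pair n 0

theorem sh_injective : Function.Injective sh := by
  intro a b h
  have h1 := congrArg Nat.unpair h
  simp only [sh, Nat.unpair_pair, Prod.mk.injEq] at h1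
  rw [← Nat.pair_unpair a, ← Nat.pair_unpair b, h1.1, Nat.add_right_cancel h1.2]

theorem dd_injective : Function.Injective dd := by
  intro a b h
  have h1 := congrArg Nat.unpair h
  simp only [dd, Nat.unpair_pair, Prod.mk.injEq] at h1
  exact h1.1

theorem sh_ne_dd (a b : ℕ) : sh a ≠ dd b := by
  intro h
  have h1 := congrArg Nat.unpair h
  simp only [sh, dd, Nat.unpair_pair, Prod.mk.injEq] at h1
  omega

theorem sh_or_dd (n : ℕ) : (∃ k, sh k = n) ∨ (∃ k, dd k = n) := by
  rcases h : n.unpair.2 with _ | l
  · right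
    refine ⟨n.unpair.1, ?_⟩
    rw [dd, ← h, Nat.pair_unpair]
  · left
    refine ⟨Nat.pair n.unpair.1 l, ?_⟩
    rw [sh, Nat.unpair_pair]
    simp only
    rw [← h, Nat.pair_unpair]

theorem push_sh_add_push_dd (y : L1 X) :
    pushL sh sh_injective (preL sh sh_injective y) +
      pushL dd dd_injective (preL dd dd_injective y) = y := by
  ext n
  rw [lp.coeFn_add, Pi.add_apply]
  rcases sh_or_dd n with ⟨k, rfl⟩ | ⟨k, rfl⟩
  · rw [pushL_apply, preL_apply, pushL_apply', add_zero]
    rintro ⟨j, hj⟩
    exact sh_ne_dd _ _ hj.symm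
  · rw [pushL_apply dd, preL_apply, pushL_apply' sh, zero_add]
    rintro ⟨j, hj⟩
    exact sh_ne_dd _ _ hj

theorem pre_push {σ : ℕ → ℕ} (hσ : Function.Injective σ) (y : L1 X) :
    preL σ hσ (pushL σ hσ y) = y := by
  ext n
  rw [preL_apply, pushL_apply]

theorem pre_sh_push_dd (y : L1 X) :
    preL sh sh_injective (pushL dd dd_injective y) = 0 := by
  ext n
  rw [preL_apply, pushL_apply' dd]
  · rfl
  · rintro ⟨j, hj⟩
    exact sh_ne_dd _ _ hj.symm

theorem pre_dd_push_sh (y : L1 X) :
    preL dd dd_injective (pushL sh sh_injective y) = 0 := by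
  ext n
  rw [preL_apply, pushL_apply' sh]
  · rfl
  · rintro ⟨j, hj⟩
    exact sh_ne_dd _ _ hj

end Pool.Agent.Helper90.HBasis
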