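import Mathlib
import Pool.Agent.Helper90.HBasis.Glue
import Pool.Agent.Helper90.HBasis.LpMaps

set_option autoImplicit false

open Filter Topology

namespace Pool.Agent.Helper90.HBasis

/-- The operators used in the gluing construction. -/
structure Sys (X : Type) [NormedAddCommGroup X] [NormedSpace ℂ X] where
  K : ℝ
  hK : 0 ≤ K
  A : ℕ → X →L[ℂ] X
  B : ℕ → X →L[ℂ] X
  R : ℕ → X →L[ℂ] X
  n : ℕ → ℕ
  e : ℕ → ℕ → X
  f : ℕ → ℕ → X →L[ℂ] ℂ
  n0 : n 0 = 0
  npos : ∀ k, 0 < k → 0 < n k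
  bi : ∀ k i j, i < n k → j < n k → f k i (e k j) = if i = j then 1 else 0
  ps : ∀ k r, r ≤ n k → ∀ x, ‖∑ i ∈ Finset.range r, f k i x • e k i‖ ≤ K * ‖x‖
  piA : ∀ k x, ∑ i ∈ Finset.range (n k), f k i (A k x) • e k i = A k x
  hA : ∀ i k, i < k → ∀ x, A i (B k (A k x)) = A i x
  hAR : ∀ i k, i < k → ∀ x, A i (R k x) = A i x
  hB : ∀ i k, i < k → ∀ x, B k (A k (B i x)) = B i x
  hRR : ∀ k x, R k (B k (A k x)) = R k x
  nA : ∀ k x, ‖A k x‖ ≤ K * ‖x‖
  nB : ∀ k x, ‖B k x‖ ≤ K * ‖x‖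
  nR : ∀ k x, ‖R k x‖ ≤ K * ‖x‖
  A0 : A 0 = 0
  B0 : B 0 = 0
  lim : ∀ x, Tendsto (fun k => B k (A k x)) atTop (𝓝 x)

variable {X : Type} [NormedAddCommGroup X] [NormedSpace ℂ X]

namespace Sys

variable (S : Sys X)

/-- Coordinate maps. -/
noncomputable def ev (n : ℕ) : X × L1 X →L[ℂ] X :=
  (lp.evalCLM ℂ (fun _ : ℕ => X) 1 n).comp (ContinuousLinearMap.snd ℂ X (L1 X))

theorem ev_apply (n : ℕ) (v : X × L1 X) : ev n v = v.2 n := rfl

/-- Coordinate embeddings. -/
noncomputable def sg (n : ℕ) : X →L[ℂ] L1 X :=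
  lp.singleContinuousLinearMap ℂ (fun _ : ℕ => X) 1 n

theorem sg_apply (n : ℕ) (x : X) (j : ℕ) : sg n x j = if j = n then x else 0 := by
  change lp.single (E := fun _ : ℕ => X) 1 n x j = _
  rw [lp.single_apply, Pi.single_apply]

theorem norm_sg (n : ℕ) (x : X) : ‖sg n x‖ = ‖x‖ := by
  change ‖lp.single (E := fun _ : ℕ => X) 1 n x‖ = _
  exact lp.norm_single (E := fun _ : ℕ => X) (p := 1) (by norm_num) n x

noncomputable def tau (k : ℕ) : X × L1 X →L[ℂ] X :=
  (S.A k).comp (ContinuousLinearMap.fst ℂ X (L1 X)) + ev (2 * k) -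
    ((S.A k).comp ((S.R k).comp (S.B k))).comp (ev (2 * k))

theorem tau_apply (k : ℕ) (v : X × L1 X) :
    S.tau k v = S.A k v.1 + v.2 (2 * k) - S.A k (S.R k (S.B k (v.2 (2 * k)))) := rfl

noncomputable def G1 (k : ℕ) : X × L1 X →L[ℂ] X :=
  ev (2 * k) - (S.tau k - ev (2 * k + 1)) +
    ((S.A k).comp (S.B k)).comp (S.tau k - ev (2 * k + 1))

theorem G1_apply (k : ℕ) (v : X × L1 X) :
    S.G1 k v = v.2 (2 * k) - (S.tau k v - v.2 (2 * k + 1)) +
      S.A k (S.B k (S.tau k v - v.2 (2 * k + 1))) := rfl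

noncomputable def G2 (k : ℕ) : X × L1 X →L[ℂ] X :=
  S.tau (k + 1) - ((S.A (k + 1)).comp (S.B k)).comp (S.tau k - ev (2 * k + 1))

theorem G2_apply (k : ℕ) (v : X × L1 X) :
    S.G2 k v = S.tau (k + 1) v - S.A (k + 1) (S.B k (S.tau k v - v.2 (2 * k + 1))) := rfl

noncomputable def th (k : ℕ) : X × X →L[ℂ] X :=
  ((S.A k).comp (S.B (k + 1))).comp (ContinuousLinearMap.snd ℂ X X) +
    ContinuousLinearMap.fst ℂ X X -
    ((S.A k).comp ((S.R k).comp (S.B k))).comp (ContinuousLinearMap.fst ℂ X X)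

theorem th_apply (k : ℕ) (p : X × X) :
    S.th k p = S.A k (S.B (k + 1) p.2) + p.1 - S.A k (S.R k (S.B k p.1)) := rfl

noncomputable def I (k : ℕ) : X × X →L[ℂ] X × L1 X :=
  ContinuousLinearMap.prod
    ((S.B (k + 1)).comp (ContinuousLinearMap.snd ℂ X X) - (S.B k).comp (S.th k))
    ((sg (2 * k)).comp (ContinuousLinearMap.fst ℂ X X - S.th k +
        ((S.A k).comp (S.B k)).comp (S.th k)) +
      (sg (2 * (k + 1))).comp (ContinuousLinearMap.snd ℂ X X -
        ((S.A (k + 1)).comp (S.B (k + 1))).comp (ContinuousLinearMap.snd ℂ X X)) +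
      (sg (2 * k + 1)).comp (S.th k))

theorem I_fst (k : ℕ) (p : X × X) : (S.I k p).1 = S.B (k + 1) p.2 - S.B k (S.th k p) := rfl

theorem I_snd (k : ℕ) (p : X × X) : (S.I k p).2 =
    sg (2 * k) (p.1 - S.th k p + S.A k (S.B k (S.th k p))) +
      sg (2 * (k + 1)) (p.2 - S.A (k + 1) (S.B (k + 1) p.2)) + sg (2 * k + 1) (S.th k p) := rfl

theorem I_snd_apply (k : ℕ) (p : X × X) (j : ℕ) : (S.I k p).2 j =
    (if j = 2 * k then p.1 - S.th k p + S.A k (S.B k (S.th k p)) else 0) +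
      (if j = 2 * (k + 1) then p.2 - S.A (k + 1) (S.B (k + 1) p.2) else 0) +
      (if j = 2 * k + 1 then S.th k p else 0) := by
  rw [I_snd, lp.coeFn_add, Pi.add_apply, lp.coeFn_add, Pi.add_apply, sg_apply, sg_apply, sg_apply]

theorem I_a (k : ℕ) (p : X × X) : (S.I k p).2 (2 * k) =
    p.1 - S.th k p + S.A k (S.B k (S.th k p)) := by
  rw [I_snd_apply, if_pos rfl, if_neg (by omega), if_neg (by omega), add_zero, add_zero]

theorem I_b (k : ℕ) (p : X × X) : (S.I k p).2 (2 * (k + 1)) =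
    p.2 - S.A (k + 1) (S.B (k + 1) p.2) := by
  rw [I_snd_apply, if_pos rfl, if_neg (by omega), if_neg (by omega), zero_add, add_zero]

theorem I_c (k : ℕ) (p : X × X) : (S.I k p).2 (2 * k + 1) = S.th k p := by
  rw [I_snd_apply, if_pos rfl, if_neg (by omega), if_neg (by omega), zero_add, zero_add]

theorem I_d (k : ℕ) (p : X × X) (j : ℕ) (h1 : j ≠ 2 * k) (h2 : j ≠ 2 * (k + 1))
    (h3 : j ≠ 2 * k + 1) : (S.I k p).2 j = 0 := by
  rw [I_snd_apply, if_neg h1, if_neg h2, if_neg h3, zero_add, zero_add]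

theorem tau_I_self (k : ℕ) (p : X × X) : S.tau k (S.I k p) = 0 := by
  rw [tau_apply, I_fst, I_a]
  simp only [map_sub, map_add, S.hRR]
  rw [th_apply]
  simp only [map_sub, map_add]
  abel

theorem tau_I_succ (k : ℕ) (p : X × X) :
    S.tau (k + 1) (S.I k p) = p.2 - S.A (k + 1) (S.B k (S.th k p)) := by
  rw [tau_apply, I_fst, I_b]
  simp only [map_sub, S.hRR]
  abel

theorem tau_I_lt (l k : ℕ) (h : l < k) (p : X × X) : S.tau l (S.I k p) = 0 := by
  rw [tau_apply, I_fst, I_d _ _ _ _ (by omega) (by omega) (by omega), th_apply]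
  simp only [map_sub, map_add, map_zero, S.hA l k h, S.hAR l k h]
  abel

theorem tau_I_gt (l k : ℕ) (h : k + 1 < l) (p : X × X) :
    S.tau l (S.I k p) = S.A l (S.B (k + 1) p.2 - S.B k (S.th k p)) := by
  rw [tau_apply, I_fst, I_d _ _ _ _ (by omega) (by omega) (by omega)]
  simp only [map_zero, sub_zero, add_zero]

theorem G1_I_self (k : ℕ) (p : X × X) : S.G1 k (S.I k p) = p.1 := by
  rw [G1_apply, tau_I_self, I_a, I_c]
  simp only [map_sub, map_zero]
  abel

theorem G2_I_self (k : ℕ) (p : X × X) : S.G2 k (S.I k p) = p.2 := by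
  rw [G2_apply, tau_I_self, I_c, tau_I_succ]
  simp only [map_sub, map_zero]
  abel

theorem G1_I_lt (l k : ℕ) (h : l < k) (p : X × X) : S.G1 l (S.I k p) = 0 := by
  rw [G1_apply, tau_I_lt _ _ _ h, I_d _ _ _ _ (by omega) (by omega) (by omega),
    I_d _ _ _ _ (by omega) (by omega) (by omega)]
  simp only [sub_self, map_zero, add_zero]

theorem G2_I_lt (l k : ℕ) (h : l < k) (p : X × X) : S.G2 l (S.I k p) = 0 := by
  rw [G2_apply, tau_I_lt _ _ _ h, I_d _ _ _ _ (by omega) (by omega) (by omega)]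
  have h1 : S.tau (l + 1) (S.I k p) = 0 := by
    rcases Nat.lt_or_ge (l + 1) k with h2 | h2
    · exact S.tau_I_lt _ _ h2 p
    · have h3 : l + 1 = k := by omega
      rw [h3]
      exact S.tau_I_self k p
  rw [h1]
  simp only [sub_self, map_zero]

theorem G1_I_gt (l k : ℕ) (h : k < l) (p : X × X) : S.G1 l (S.I k p) = 0 := by
  rcases Nat.lt_or_ge (k + 1) l with h2 | h2
  · rw [G1_apply, tau_I_gt _ _ _ h2, I_d _ _ _ _ (by omega) (by omega) (by omega),
      I_d _ _ _ _ (by omega) (by omega) (by omega)]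
    simp only [map_sub, map_zero, S.hB _ _ h2, S.hB _ _ h]
    abel
  · have h3 : l = k + 1 := by omega
    subst h3
    rw [G1_apply, tau_I_succ, I_b, I_d _ _ _ _ (by omega) (by omega) (by omega)]
    simp only [map_sub, map_zero, S.hB _ _ h]
    abel

theorem G2_I_gt (l k : ℕ) (h : k < l) (p : X × X) : S.G2 l (S.I k p) = 0 := by
  rcases Nat.lt_or_ge (k + 1) l with h2 | h2
  · rw [G2_apply, tau_I_gt _ _ _ h2, tau_I_gt _ _ _ (by omega),
      I_d _ _ _ _ (by omega) (by omega) (by omega)]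
    simp only [map_sub, map_zero, S.hB _ _ h2, S.hB _ _ h]
    abel
  · have h3 : l = k + 1 := by omega
    subst h3
    rw [G2_apply, tau_I_succ, tau_I_gt _ _ _ (by omega),
      I_d _ _ _ _ (by omega) (by omega) (by omega)]
    simp only [map_sub, map_zero, S.hB _ _ h]
    abel

/-- The partial projections. -/
noncomputable def P (k : ℕ) (v : X × L1 X) : X × L1 X :=
  (S.B k (S.tau k v), ∑ j ∈ Finset.range (2 * k), sg j (v.2 j) +
    sg (2 * k) (S.tau k v - S.A k (S.B k (S.tau k v))))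

theorem th_G (k : ℕ) (v : X × L1 X) : S.th k (S.G1 k v, S.G2 k v) = v.2 (2 * k + 1) := by
  have h : S.A k (S.B (k + 1) (S.tau (k + 1) v)) = S.A k v.1 := by
    rw [tau_apply]
    simp only [map_sub, map_add, S.hA k (k + 1) (Nat.lt_succ_self k),
      S.hAR k (k + 1) (Nat.lt_succ_self k)]
    abel
  rw [th_apply, G1_apply, G2_apply]
  simp only [map_sub, map_add, h, S.hB k (k + 1) (Nat.lt_succ_self k), S.hRR]
  rw [tau_apply S k v]
  simp only [map_sub, map_add]
  abel

theorem I_G (k : ℕ) (v : X × L1 X) : S.I k (S.G1 k v, S.G2 k v) = S.P (k + 1) v - S.P k v := by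
  have hb := S.hB k (k + 1) (Nat.lt_succ_self k)
  refine Prod.ext ?_ ?_
  · rw [I_fst, th_G, Prod.fst_sub]
    simp only [P]
    rw [G2_apply]
    simp only [map_sub, hb]
    abel
  · rw [I_snd, th_G, Prod.snd_sub]
    simp only [P]
    rw [show 2 * (k + 1) = 2 * k + 1 + 1 from rfl, Finset.sum_range_succ, Finset.sum_range_succ,
      G1_apply, G2_apply]
    simp only [map_sub, map_add, hb]
    abel

theorem P_zero (v : X × L1 X) (hv : v.2 0 = 0) : S.P 0 v = 0 := by
  have h : S.tau 0 v = 0 := by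
    rw [tau_apply, S.A0, S.B0]
    simp [hv]
  rw [P, h]
  simp

theorem sum_I_G (k : ℕ) (v : X × L1 X) (hv : v.2 0 = 0) :
    ∑ l ∈ Finset.range k, S.I l (S.G1 l v, S.G2 l v) = S.P k v := by
  induction k with
  | zero => simp [S.P_zero v hv]
  | succ k ih => rw [Finset.sum_range_succ, ih, I_G]; abel

theorem two_mul_tendsto : Tendsto (fun k : ℕ => 2 * k) atTop atTop :=
  tendsto_atTop_mono (fun k => by show k ≤ 2 * k; omega) tendsto_id

theorem coord_tendsto (y : L1 X) : Tendsto (fun k => ‖y (2 * k)‖) atTop (𝓝 0) :=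
  (summable_L1 y).tendsto_atTop_zero.comp two_mul_tendsto

theorem P_tendsto (v : X × L1 X) : Tendsto (fun k => S.P k v) atTop (𝓝 v) := by
  have hq : Tendsto (fun k => v.2 (2 * k) - S.A k (S.R k (S.B k (v.2 (2 * k))))) atTop
      (𝓝 0) := by
    refine squeeze_zero_norm (a := fun k => ‖v.2 (2 * k)‖ + S.K * (S.K * (S.K * ‖v.2 (2 * k)‖)))
      ?_ ?_
    · intro k
      refine (norm_sub_le _ _).trans ?_
      gcongr
      refine (S.nA _ _).trans ?_
      refine mul_le_mul_of_nonneg_left ?_ S.hK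
      refine (S.nR _ _).trans ?_
      exact mul_le_mul_of_nonneg_left (S.nB _ _) S.hK
    · have h := coord_tendsto v.2
      simpa using h.add (((h.const_mul S.K).const_mul S.K).const_mul S.K)
  have h1 : Tendsto (fun k => S.B k (S.tau k v)) atTop (𝓝 v.1) := by
    have h2 : Tendsto (fun k => S.B k (v.2 (2 * k) - S.A k (S.R k (S.B k (v.2 (2 * k))))))
        atTop (𝓝 0) := by
      refine squeeze_zero_norm (fun k => S.nB _ _) ?_
      simpa using hq.norm.const_mul S.K
    have h3 := (S.lim v.1).add h2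
    rw [add_zero] at h3
    refine h3.congr ?_
    intro k
    rw [tau_apply, ← map_add]
    congr 1
    abel
  have h2 : Tendsto (fun k => S.tau k v - S.A k (S.B k (S.tau k v))) atTop (𝓝 0) := by
    have h3 : Tendsto (fun k => S.A k (v.1 - S.B k (S.A k v.1))) atTop (𝓝 0) := by
      refine squeeze_zero_norm (fun k => S.nA _ _) ?_
      have h4 : Tendsto (fun k => v.1 - S.B k (S.A k v.1)) atTop (𝓝 0) := by
        simpa using (tendsto_const_nhds (x := v.1)).sub (S.lim v.1)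
      simpa using h4.norm.const_mul S.K
    have h5 : Tendsto (fun k => S.A k (S.B k (v.2 (2 * k) -
        S.A k (S.R k (S.B k (v.2 (2 * k))))))) atTop (𝓝 0) := by
      refine squeeze_zero_norm (fun k => (S.nA _ _).trans
        (mul_le_mul_of_nonneg_left (S.nB _ _) S.hK)) ?_
      simpa using (hq.norm.const_mul S.K).const_mul S.K
    have h6 := (h3.add hq).sub h5
    simp only [add_zero, sub_zero] at h6
    refine h6.congr ?_
    intro k
    rw [tau_apply]
    simp only [map_sub, map_add]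
    abel
  have h3 : Tendsto (fun k => sg (2 * k) (S.tau k v - S.A k (S.B k (S.tau k v)))) atTop
      (𝓝 0) := by
    rw [tendsto_zero_iff_norm_tendsto_zero]
    simp only [norm_sg]
    simpa using h2.norm
  have h4 : Tendsto (fun k => ∑ j ∈ Finset.range (2 * k), sg j (v.2 j)) atTop (𝓝 v.2) := by
    have h5 : HasSum (fun i => lp.single 1 i (v.2 i)) v.2 := lp.hasSum_single (by simp) v.2
    exact h5.tendsto_sum_nat.comp two_mul_tendsto
  have h5 := h4.add h3
  rw [add_zero] at h5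
  exact h1.prodMk_nhds h5

end Sys

end Pool.Agent.Helper90.HBasis
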