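import Mathlib
import Pool.Agent.Helper90.HBasis.Sys

set_option autoImplicit false
set_option linter.unusedSectionVars false

open Filter Topology

namespace Pool.Agent.Helper90.HBasis

variable {X : Type} [NormedAddCommGroup X] [NormedSpace ℂ X]

namespace Sys

variable (S : Sys X)

/-- The block projections. -/
noncomputable def pi (k : ℕ) : X →L[ℂ] X :=
  ∑ i ∈ Finset.range (S.n k), (S.f k i).smulRight (S.e k i)

theorem pi_apply (k : ℕ) (x : X) :
    S.pi k x = ∑ i ∈ Finset.range (S.n k), S.f k i x • S.e k i := by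
  simp [pi]

theorem pi_A (k : ℕ) (x : X) : S.pi k (S.A k x) = S.A k x := by
  rw [pi_apply, S.piA]

theorem pi_e (k i : ℕ) (hi : i < S.n k) : S.pi k (S.e k i) = S.e k i := by
  rw [pi_apply, Finset.sum_eq_single i]
  · rw [S.bi k i i hi hi, if_pos rfl, one_smul]
  · intro j hj hne
    rw [S.bi k j i (Finset.mem_range.1 hj) hi, if_neg hne, zero_smul]
  · intro h
    exact absurd (Finset.mem_range.2 hi) h

theorem pi_pi (k : ℕ) (x : X) : S.pi k (S.pi k x) = S.pi k x := by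
  conv_lhs => rw [S.pi_apply k x]
  rw [map_sum, S.pi_apply k x]
  refine Finset.sum_congr rfl ?_
  intro i hi
  rw [map_smul, pi_e _ _ _ (Finset.mem_range.1 hi)]

theorem norm_pi (k : ℕ) (x : X) : ‖S.pi k x‖ ≤ S.K * ‖x‖ := by
  rw [pi_apply]
  exact S.ps k _ le_rfl x

theorem pi_zero (x : X) : S.pi 0 x = 0 := by
  rw [pi_apply, S.n0]
  simp

/-- The subspace on which the construction lives. -/
def V (v : X × L1 X) : Prop := ∀ j, S.pi (j / 2) (v.2 j) = v.2 j

variable {S}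

theorem V.even {v : X × L1 X} (hv : S.V v) (k : ℕ) : S.pi k (v.2 (2 * k)) = v.2 (2 * k) := by
  have h := hv (2 * k)
  rwa [show 2 * k / 2 = k by omega] at h

theorem V.odd {v : X × L1 X} (hv : S.V v) (k : ℕ) :
    S.pi k (v.2 (2 * k + 1)) = v.2 (2 * k + 1) := by
  have h := hv (2 * k + 1)
  rwa [show (2 * k + 1) / 2 = k by omega] at h

theorem V.zero {v : X × L1 X} (hv : S.V v) : v.2 0 = 0 := by
  have h := hv.even 0
  rw [pi_zero] at h
  exact h.symm

theorem V.tau {v : X × L1 X} (hv : S.V v) (k : ℕ) : S.pi k (S.tau k v) = S.tau k v := by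
  rw [tau_apply]
  simp only [map_sub, map_add, pi_A, hv.even]

theorem V.G1 {v : X × L1 X} (hv : S.V v) (k : ℕ) : S.pi k (S.G1 k v) = S.G1 k v := by
  rw [G1_apply]
  simp only [map_sub, map_add, pi_A, hv.even, hv.odd, hv.tau]

theorem V.G2 {v : X × L1 X} (hv : S.V v) (k : ℕ) :
    S.pi (k + 1) (S.G2 k v) = S.G2 k v := by
  rw [G2_apply]
  simp only [map_sub, pi_A, hv.tau]

variable (S)

theorem V_I (k : ℕ) (p : X × X) (h1 : S.pi k p.1 = p.1) (h2 : S.pi (k + 1) p.2 = p.2) :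
    S.V (S.I k p) := by
  have hth : S.pi k (S.th k p) = S.th k p := by
    rw [th_apply]
    simp only [map_sub, map_add, pi_A, h1]
  intro j
  by_cases ha : j = 2 * k
  · subst ha
    rw [I_a, show 2 * k / 2 = k by omega]
    simp only [map_sub, map_add, pi_A, h1, hth]
  · by_cases hb : j = 2 * (k + 1)
    · subst hb
      rw [I_b, show 2 * (k + 1) / 2 = k + 1 by omega]
      simp only [map_sub, pi_A, h2]
    · by_cases hc : j = 2 * k + 1
      · subst hc
        rw [I_c, show (2 * k + 1) / 2 = k by omega, hth]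
      · rw [I_d _ _ _ _ ha hb hc, map_zero]

/-- Block sizes. -/
def m (k : ℕ) : ℕ := S.n k + S.n (k + 1)

theorem m_pos (k : ℕ) : 0 < S.m k := by
  have := S.npos (k + 1) (Nat.succ_pos k)
  unfold m
  omega

/-- Basis vectors. -/
noncomputable def u (k i : ℕ) : X × L1 X :=
  if i < S.n k then S.I k (S.e k i, 0) else S.I k (0, S.e (k + 1) (i - S.n k))

/-- Coefficient functionals. -/
noncomputable def ph (k i : ℕ) : X × L1 X →L[ℂ] ℂ :=
  if i < S.n k then (S.f k i).comp (S.G1 k) else (S.f (k + 1) (i - S.n k)).comp (S.G2 k)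

theorem V_u (k i : ℕ) (hi : i < S.m k) : S.V (S.u k i) := by
  unfold u
  split_ifs with h
  · exact S.V_I k _ (S.pi_e k i h) (map_zero _)
  · refine S.V_I k _ (map_zero _) (S.pi_e (k + 1) _ ?_)
    unfold m at hi
    omega

theorem G1_I (l k : ℕ) (p : X × X) : S.G1 l (S.I k p) = if l = k then p.1 else 0 := by
  rcases lt_trichotomy l k with h | h | h
  · rw [G1_I_lt _ _ _ h, if_neg h.ne]
  · subst h
    rw [G1_I_self, if_pos rfl]
  · rw [G1_I_gt _ _ _ h, if_neg h.ne']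

theorem G2_I (l k : ℕ) (p : X × X) : S.G2 l (S.I k p) = if l = k then p.2 else 0 := by
  rcases lt_trichotomy l k with h | h | h
  · rw [G2_I_lt _ _ _ h, if_neg h.ne]
  · subst h
    rw [G2_I_self, if_pos rfl]
  · rw [G2_I_gt _ _ _ h, if_neg h.ne']

theorem biorth (k l i j : ℕ) (hi : i < S.m k) (hj : j < S.m l) :
    S.ph k i (S.u l j) = if k = l ∧ i = j then 1 else 0 := by
  unfold ph u
  unfold m at hi hj
  by_cases hkl : k = l
  · subst hkl
    simp only [true_and]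
    by_cases h1 : i < S.n k
    · by_cases h2 : j < S.n k
      · rw [if_pos h1, if_pos h2, ContinuousLinearMap.comp_apply, G1_I_self]
        exact S.bi k i j h1 h2
      · rw [if_pos h1, if_neg h2, ContinuousLinearMap.comp_apply, G1_I_self, if_neg (by omega)]
        exact map_zero _
    · by_cases h2 : j < S.n k
      · rw [if_neg h1, if_pos h2, ContinuousLinearMap.comp_apply, G2_I_self, if_neg (by omega)]
        exact map_zero _
      · rw [if_neg h1, if_neg h2, ContinuousLinearMap.comp_apply, G2_I_self,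
          S.bi (k + 1) _ _ (by omega) (by omega)]
        by_cases h3 : i = j
        · rw [if_pos h3, if_pos (by omega)]
        · rw [if_neg h3, if_neg (by omega)]
  · have hf : ¬ (k = l ∧ i = j) := fun h => hkl h.1
    rw [if_neg hf]
    by_cases h1 : i < S.n k
    · rw [if_pos h1, ContinuousLinearMap.comp_apply]
      by_cases h2 : j < S.n l
      · rw [if_pos h2, G1_I, if_neg hkl, map_zero]
      · rw [if_neg h2, G1_I, if_neg hkl, map_zero]
    · rw [if_neg h1, ContinuousLinearMap.comp_apply]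
      by_cases h2 : j < S.n l
      · rw [if_pos h2, G2_I, if_neg hkl, map_zero]
      · rw [if_neg h2, G2_I, if_neg hkl, map_zero]

theorem partial_sum (k r : ℕ) (hr : r ≤ S.m k) (w : X × L1 X) :
    ∑ i ∈ Finset.range r, S.ph k i w • S.u k i =
      S.I k (∑ i ∈ Finset.range (min r (S.n k)), S.f k i (S.G1 k w) • S.e k i,
        ∑ i ∈ Finset.range (r - S.n k), S.f (k + 1) i (S.G2 k w) • S.e (k + 1) i) := by
  induction r with
  | zero =>
    have h0 : S.I k ((0 : X), (0 : X)) = 0 := map_zero (S.I k)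
    simp [h0]
  | succ r ih =>
    rw [Finset.sum_range_succ, ih (by omega)]
    by_cases h : r < S.n k
    · rw [ph, u, if_pos h, if_pos h, min_eq_left h.le, min_eq_left (by omega),
        Finset.sum_range_succ, show r - S.n k = 0 by omega, show r + 1 - S.n k = 0 by omega,
        ← map_smul, ← map_add]
      simp
    · rw [ph, u, if_neg h, if_neg h, min_eq_right (by omega), min_eq_right (by omega),
        show r + 1 - S.n k = r - S.n k + 1 by omega, Finset.sum_range_succ, ← map_smul,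
        ← map_add]
      simp

theorem norm_th (k : ℕ) (p : X × X) :
    ‖S.th k p‖ ≤ (1 + S.K * S.K + S.K * (S.K * S.K)) * (‖p.1‖ + ‖p.2‖) := by
  have hK := S.hK
  rw [th_apply]
  have h1 : ‖S.A k (S.B (k + 1) p.2)‖ ≤ S.K * S.K * ‖p.2‖ := by
    rw [mul_assoc]
    exact (S.nA _ _).trans (mul_le_mul_of_nonneg_left (S.nB _ _) hK)
  have h2 : ‖S.A k (S.R k (S.B k p.1))‖ ≤ S.K * (S.K * S.K) * ‖p.1‖ := by
    rw [mul_assoc, mul_assoc]
    exact (S.nA _ _).trans (mul_le_mul_of_nonneg_left ((S.nR _ _).trans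
      (mul_le_mul_of_nonneg_left (S.nB _ _) hK)) hK)
  have h3 := norm_sub_le (S.A k (S.B (k + 1) p.2) + p.1) (S.A k (S.R k (S.B k p.1)))
  have h4 := norm_add_le (S.A k (S.B (k + 1) p.2)) p.1
  have hp1 := norm_nonneg p.1
  have hp2 := norm_nonneg p.2
  have e1 : 0 ≤ S.K * S.K * ‖p.1‖ := by positivity
  have e2 : 0 ≤ S.K * (S.K * S.K) * ‖p.2‖ := by positivity
  nlinarith

theorem norm_I (k : ℕ) (p : X × X) :
    ‖S.I k p‖ ≤ (2 + 2 * S.K + S.K * S.K) * (1 + (1 + S.K * S.K + S.K * (S.K * S.K))) *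
      (‖p.1‖ + ‖p.2‖) := by
  have hK := S.hK
  set c := 1 + S.K * S.K + S.K * (S.K * S.K) with hc
  have hc0 : 0 ≤ c := by positivity
  have hth := S.norm_th k p
  have hp1 := norm_nonneg p.1
  have hp2 := norm_nonneg p.2
  have ht0 := norm_nonneg (S.th k p)
  have hB1 := S.nB (k + 1) p.2
  have hB2 := S.nB k (S.th k p)
  have hAB1 : ‖S.A k (S.B k (S.th k p))‖ ≤ S.K * S.K * ‖S.th k p‖ := by
    rw [mul_assoc]
    exact (S.nA _ _).trans (mul_le_mul_of_nonneg_left hB2 hK)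
  have hAB2 : ‖S.A (k + 1) (S.B (k + 1) p.2)‖ ≤ S.K * S.K * ‖p.2‖ := by
    rw [mul_assoc]
    exact (S.nA _ _).trans (mul_le_mul_of_nonneg_left hB1 hK)
  have hKK : 0 ≤ S.K * S.K := by positivity
  have main1 : ‖(S.I k p).1‖ ≤ S.K * (‖p.2‖ + ‖S.th k p‖) := by
    rw [I_fst]
    have := norm_sub_le (S.B (k + 1) p.2) (S.B k (S.th k p))
    nlinarith
  have main2 : ‖(S.I k p).2‖ ≤ (2 + S.K * S.K) * (‖p.1‖ + ‖p.2‖ + ‖S.th k p‖) := by
    rw [I_snd]
    have e1 := norm_add_le (sg (2 * k) (p.1 - S.th k p + S.A k (S.B k (S.th k p))) +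
      sg (2 * (k + 1)) (p.2 - S.A (k + 1) (S.B (k + 1) p.2))) (sg (2 * k + 1) (S.th k p))
    have e2 := norm_add_le (sg (2 * k) (p.1 - S.th k p + S.A k (S.B k (S.th k p))))
      (sg (2 * (k + 1)) (p.2 - S.A (k + 1) (S.B (k + 1) p.2)))
    rw [norm_sg] at e1 e2
    rw [norm_sg] at e2
    have e3 := norm_add_le (p.1 - S.th k p) (S.A k (S.B k (S.th k p)))
    have e4 := norm_sub_le p.1 (S.th k p)
    have e5 := norm_sub_le p.2 (S.A (k + 1) (S.B (k + 1) p.2))
    have e6 : 0 ≤ S.K * S.K * ‖p.1‖ := by positivity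
    nlinarith
  have h1 : ‖S.th k p‖ ≤ c * (‖p.1‖ + ‖p.2‖) := hth
  have h2 : ‖p.1‖ + ‖p.2‖ + ‖S.th k p‖ ≤ (1 + c) * (‖p.1‖ + ‖p.2‖) := by linarith
  have h3 : ‖(S.I k p).1‖ ≤ S.K * ((1 + c) * (‖p.1‖ + ‖p.2‖)) :=
    main1.trans (mul_le_mul_of_nonneg_left (by linarith) hK)
  have h4 : ‖(S.I k p).2‖ ≤ (2 + S.K * S.K) * ((1 + c) * (‖p.1‖ + ‖p.2‖)) :=
    main2.trans (mul_le_mul_of_nonneg_left h2 (by positivity))
  have h0 : 0 ≤ (1 + c) * (‖p.1‖ + ‖p.2‖) := by positivity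
  have h00 : 0 ≤ S.K * ((1 + c) * (‖p.1‖ + ‖p.2‖)) := by positivity
  have h01 : 0 ≤ (2 + S.K * S.K) * ((1 + c) * (‖p.1‖ + ‖p.2‖)) := by positivity
  rw [Prod.norm_def]
  refine max_le ?_ ?_
  · refine h3.trans ?_
    nlinarith
  · refine h4.trans ?_
    nlinarith

theorem norm_coord (y : L1 X) (n : ℕ) : ‖y n‖ ≤ ‖y‖ := lp.norm_apply_le_norm (by norm_num) y n

theorem norm_tau (k : ℕ) (v : X × L1 X) :
    ‖S.tau k v‖ ≤ (1 + S.K + S.K * (S.K * S.K)) * ‖v‖ := by
  have hK := S.hK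
  rw [tau_apply]
  have hv1 : ‖v.1‖ ≤ ‖v‖ := norm_fst_le v
  have hv2 : ‖v.2 (2 * k)‖ ≤ ‖v‖ := (norm_coord _ _).trans (norm_snd_le v)
  have h1 : ‖S.A k v.1‖ ≤ S.K * ‖v‖ := (S.nA _ _).trans (mul_le_mul_of_nonneg_left hv1 hK)
  have h2 : ‖S.A k (S.R k (S.B k (v.2 (2 * k))))‖ ≤ S.K * (S.K * S.K) * ‖v‖ := by
    rw [mul_assoc, mul_assoc]
    exact (S.nA _ _).trans (mul_le_mul_of_nonneg_left ((S.nR _ _).trans
      (mul_le_mul_of_nonneg_left ((S.nB _ _).trans (mul_le_mul_of_nonneg_left hv2 hK)) hK)) hK)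
  have h3 := norm_sub_le (S.A k v.1 + v.2 (2 * k)) (S.A k (S.R k (S.B k (v.2 (2 * k)))))
  have h4 := norm_add_le (S.A k v.1) (v.2 (2 * k))
  nlinarith

theorem norm_G (k : ℕ) (v : X × L1 X) :
    ‖S.G1 k v‖ ≤ (3 + S.K * S.K) * (2 + S.K + S.K * (S.K * S.K)) * ‖v‖ ∧
    ‖S.G2 k v‖ ≤ (3 + S.K * S.K) * (2 + S.K + S.K * (S.K * S.K)) * ‖v‖ := by
  have hK := S.hK
  set c := 1 + S.K + S.K * (S.K * S.K) with hc
  have hc0 : 0 ≤ c := by positivity
  have hv := norm_nonneg v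
  have t1 := S.norm_tau k v
  have t2 := S.norm_tau (k + 1) v
  have hv2 : ‖v.2 (2 * k)‖ ≤ ‖v‖ := (norm_coord _ _).trans (norm_snd_le v)
  have hv3 : ‖v.2 (2 * k + 1)‖ ≤ ‖v‖ := (norm_coord _ _).trans (norm_snd_le v)
  have h1 := norm_sub_le (S.tau k v) (v.2 (2 * k + 1))
  have h2 : ‖S.tau k v - v.2 (2 * k + 1)‖ ≤ (1 + c) * ‖v‖ := by linarith
  have h3 : ∀ l, ‖S.A l (S.B k (S.tau k v - v.2 (2 * k + 1)))‖ ≤
      S.K * S.K * ((1 + c) * ‖v‖) := by
    intro l
    rw [mul_assoc]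
    exact (S.nA _ _).trans (mul_le_mul_of_nonneg_left ((S.nB _ _).trans
      (mul_le_mul_of_nonneg_left h2 hK)) hK)
  have hcc : 2 + S.K + S.K * (S.K * S.K) = 1 + c := by rw [hc]; ring
  rw [hcc]
  have h0 : 0 ≤ c * ‖v‖ := by positivity
  constructor
  · rw [G1_apply]
    have e1 := norm_add_le (v.2 (2 * k) - (S.tau k v - v.2 (2 * k + 1)))
      (S.A k (S.B k (S.tau k v - v.2 (2 * k + 1))))
    have e2 := norm_sub_le (v.2 (2 * k)) (S.tau k v - v.2 (2 * k + 1))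
    have e3 := h3 k
    nlinarith
  · rw [G2_apply]
    have e1 := norm_sub_le (S.tau (k + 1) v)
      (S.A (k + 1) (S.B k (S.tau k v - v.2 (2 * k + 1))))
    have e3 := h3 (k + 1)
    nlinarith

theorem ps_bound : ∃ M : ℝ, ∀ k r, r ≤ S.m k → ∀ w,
    ‖∑ i ∈ Finset.range r, S.ph k i w • S.u k i‖ ≤ M * ‖w‖ := by
  have hK := S.hK
  refine ⟨((2 + 2 * S.K + S.K * S.K) * (1 + (1 + S.K * S.K + S.K * (S.K * S.K)))) *
    (2 * (S.K * ((3 + S.K * S.K) * (2 + S.K + S.K * (S.K * S.K))))), ?_⟩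
  intro k r hr w
  rw [S.partial_sum k r hr w]
  refine (S.norm_I k _).trans ?_
  rw [mul_assoc _ _ ‖w‖]
  refine mul_le_mul_of_nonneg_left ?_ (by positivity)
  obtain ⟨g1, g2⟩ := S.norm_G k w
  have h1 : ‖∑ i ∈ Finset.range (min r (S.n k)), S.f k i (S.G1 k w) • S.e k i‖ ≤
      S.K * ((3 + S.K * S.K) * (2 + S.K + S.K * (S.K * S.K)) * ‖w‖) :=
    (S.ps k _ (min_le_right _ _) _).trans (mul_le_mul_of_nonneg_left g1 hK)
  have h2 : ‖∑ i ∈ Finset.range (r - S.n k), S.f (k + 1) i (S.G2 k w) • S.e (k + 1) i‖ ≤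
      S.K * ((3 + S.K * S.K) * (2 + S.K + S.K * (S.K * S.K)) * ‖w‖) := by
    refine (S.ps (k + 1) _ ?_ _).trans (mul_le_mul_of_nonneg_left g2 hK)
    unfold m at hr
    omega
  refine (add_le_add h1 h2).trans (le_of_eq ?_)
  ring

theorem block_sum (k : ℕ) (v : X × L1 X) (hv : S.V v) :
    ∑ i ∈ Finset.range (S.m k), S.ph k i v • S.u k i = S.I k (S.G1 k v, S.G2 k v) := by
  rw [S.partial_sum k _ le_rfl v, show min (S.m k) (S.n k) = S.n k by unfold m; omega,
    show S.m k - S.n k = S.n (k + 1) by unfold m; omega, ← pi_apply, ← pi_apply, hv.G1, hv.G2]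

theorem exists_basis : ∃ (e' : ℕ → X × L1 X) (f' : ℕ → X × L1 X →L[ℂ] ℂ),
    (∀ i j, f' i (e' j) = if i = j then 1 else 0) ∧ (∀ j, S.V (e' j)) ∧
    ∀ v, S.V v → Tendsto (fun N => ∑ n ∈ Finset.range N, f' n v • e' n) atTop (𝓝 v) := by
  obtain ⟨M, hM⟩ := S.ps_bound
  refine ⟨fun n => S.u (blk S.m n).1 (blk S.m n).2, fun n => S.ph (blk S.m n).1 (blk S.m n).2,
    ?_, ?_, ?_⟩
  · intro i j
    simp only
    rw [S.biorth _ _ _ _ (blk_lt S.m_pos i) (blk_lt S.m_pos j)]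
    by_cases h : i = j
    · subst h
      simp
    · rw [if_neg h, if_neg]
      rintro ⟨h1, h2⟩
      exact h (blk_injective S.m_pos (Prod.ext h1 h2))
  · intro j
    exact S.V_u _ _ (blk_lt S.m_pos j)
  · intro v hv
    refine glue S.m_pos S.u S.ph (fun k l i j hi hj => S.biorth k l i j hi hj) M hM v ?_
    refine (S.P_tendsto v).congr ?_
    intro k
    rw [← S.sum_I_G k v hv.zero]
    refine Finset.sum_congr rfl ?_
    intro l _
    exact (S.block_sum l v hv).symm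

end Sys

end Pool.Agent.Helper90.HBasis
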