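import Mathlib
import Pool.Agent.Helper90.HBasis.SysBasis

set_option autoImplicit false
set_option linter.unusedSectionVars false

open Filter Topology

namespace Pool.Agent.Helper90.HBasis

variable {X : Type} [NormedAddCommGroup X] [NormedSpace ℂ X]

namespace Sys

variable (S : Sys X)

/-- Diagonal projection with the pairing types. -/
noncomputable def Pd : L1 X →L[ℂ] L1 X :=
  diagL (fun n => S.pi (n.unpair.1 / 2)) S.K (fun _ x => S.norm_pi _ x)

theorem Pd_apply (y : L1 X) (n : ℕ) : S.Pd y n = S.pi (n.unpair.1 / 2) (y n) := rfl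

theorem Pd_Pd (y : L1 X) : S.Pd (S.Pd y) = S.Pd y := by
  ext n
  rw [Pd_apply, Pd_apply, pi_pi]

theorem pi_Pd (y : L1 X) (n : ℕ) : S.pi (n.unpair.1 / 2) (S.Pd y n) = S.Pd y n := by
  rw [Pd_apply, pi_pi]

theorem Pd_eq (y : L1 X) (h : ∀ n, S.pi (n.unpair.1 / 2) (y n) = y n) : S.Pd y = y := by
  ext n
  rw [Pd_apply, h n]

theorem pi_pre_sh (y : L1 X) (hy : ∀ n, S.pi (n.unpair.1 / 2) (y n) = y n) (n : ℕ) :
    S.pi (n.unpair.1 / 2) (preL sh sh_injective y n) = preL sh sh_injective y n := by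
  rw [preL_apply]
  have h := hy (sh n)
  rwa [sh, Nat.unpair_pair] at h

theorem pi_pre_dd (y : L1 X) (hy : ∀ n, S.pi (n.unpair.1 / 2) (y n) = y n) (n : ℕ) :
    S.pi (n / 2) (preL dd dd_injective y n) = preL dd dd_injective y n := by
  rw [preL_apply]
  have h := hy (dd n)
  rwa [dd, Nat.unpair_pair] at h

theorem pi_push (y z : L1 X) (hy : ∀ n, S.pi (n.unpair.1 / 2) (y n) = y n)
    (hz : ∀ n, S.pi (n / 2) (z n) = z n) (n : ℕ) :
    S.pi (n.unpair.1 / 2) ((pushL sh sh_injective y + pushL dd dd_injective z) n) =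
      (pushL sh sh_injective y + pushL dd dd_injective z) n := by
  rw [lp.coeFn_add, Pi.add_apply]
  rcases sh_or_dd n with ⟨k, rfl⟩ | ⟨k, rfl⟩
  · rw [pushL_apply, pushL_apply' dd, add_zero]
    · have h := hy k
      rwa [sh, Nat.unpair_pair]
    · rintro ⟨j, hj⟩
      exact sh_ne_dd _ _ hj.symm
  · rw [pushL_apply dd, pushL_apply' sh, zero_add]
    · have h := hz k
      rwa [dd, Nat.unpair_pair]
    · rintro ⟨j, hj⟩
      exact sh_ne_dd _ _ hj

variable (J : L1 X →L[ℂ] X) (J' : X →L[ℂ] L1 X)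

/-- The operator `x ↦ Π J' x`. -/
noncomputable def cc : X →L[ℂ] L1 X := S.Pd.comp J'

theorem cc_apply (x : X) : S.cc J' x = S.Pd (J' x) := rfl

/-- The isomorphism onto the model space. -/
noncomputable def Phi : X →L[ℂ] X × L1 X :=
  ContinuousLinearMap.prod
    (ContinuousLinearMap.id ℂ X - J.comp (S.cc J') +
      J.comp ((preL sh sh_injective).comp (S.cc J')))
    ((preL dd dd_injective).comp (S.cc J'))

theorem Phi_fst (x : X) : (S.Phi J J' x).1 =
    x - J (S.cc J' x) + J (preL sh sh_injective (S.cc J' x)) := rfl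

theorem Phi_snd (x : X) : (S.Phi J J' x).2 = preL dd dd_injective (S.cc J' x) := rfl

/-- The inverse isomorphism. -/
noncomputable def Psi : X × L1 X →L[ℂ] X :=
  (ContinuousLinearMap.id ℂ X - J.comp (S.cc J') +
    J.comp ((pushL sh sh_injective).comp (S.cc J'))).comp (ContinuousLinearMap.fst ℂ X (L1 X)) +
  (J.comp (pushL dd dd_injective)).comp (ContinuousLinearMap.snd ℂ X (L1 X))

theorem Psi_apply (v : X × L1 X) : S.Psi J J' v =
    v.1 - J (S.cc J' v.1) + J (pushL sh sh_injective (S.cc J' v.1)) +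
      J (pushL dd dd_injective v.2) := rfl

theorem pi_cc (x : X) (n : ℕ) : S.pi (n.unpair.1 / 2) (S.cc J' x n) = S.cc J' x n :=
  S.pi_Pd _ n

theorem V_Phi (x : X) : S.V (S.Phi J J' x) := by
  intro j
  rw [Phi_snd]
  exact S.pi_pre_dd _ (S.pi_cc J' x) j

variable {J J'}

theorem Psi_Phi (hJ : ∀ y, J' (J y) = y) (x : X) : S.Psi J J' (S.Phi J J' x) = x := by
  have h : S.cc J' (S.Phi J J' x).1 = preL sh sh_injective (S.cc J' x) := by
    rw [cc_apply, Phi_fst]
    simp only [map_add, map_sub, hJ]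
    rw [S.Pd_eq (S.cc J' x) (S.pi_cc J' x), S.Pd_eq _ (S.pi_pre_sh _ (S.pi_cc J' x)),
      ← cc_apply, sub_self, zero_add]
  rw [Psi_apply, h, Phi_fst, Phi_snd]
  have h2 := push_sh_add_push_dd (S.cc J' x)
  have h3 : J (pushL sh sh_injective (preL sh sh_injective (S.cc J' x))) +
      J (pushL dd dd_injective (preL dd dd_injective (S.cc J' x))) = J (S.cc J' x) := by
    rw [← map_add, h2]
  rw [add_assoc, h3]
  abel

theorem Phi_Psi (hJ : ∀ y, J' (J y) = y) (v : X × L1 X) (hv : S.V v) :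
    S.Phi J J' (S.Psi J J' v) = v := by
  set m := pushL sh sh_injective (S.cc J' v.1) + pushL dd dd_injective v.2 with hm
  have hPsi : S.Psi J J' v = v.1 - J (S.cc J' v.1) + J m := by
    rw [Psi_apply, hm, map_add, add_assoc]
  have hmfix : S.Pd m = m := S.Pd_eq m (S.pi_push _ _ (S.pi_cc J' v.1) hv)
  have hc : S.cc J' (S.Psi J J' v) = m := by
    rw [cc_apply, hPsi]
    simp only [map_add, map_sub, hJ, hmfix]
    rw [S.Pd_eq (S.cc J' v.1) (S.pi_cc J' v.1), ← cc_apply, sub_self, zero_add]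
  have h1 : preL sh sh_injective m = S.cc J' v.1 := by
    rw [hm, map_add, pre_push, pre_sh_push_dd, add_zero]
  have h2 : preL dd dd_injective m = v.2 := by
    rw [hm, map_add, pre_push, pre_dd_push_sh, zero_add]
  refine Prod.ext ?_ ?_
  · rw [Phi_fst, hc, h1, hPsi]
    abel
  · rw [Phi_snd, hc, h2]

include S in
theorem basis_of_retract (hJ : ∀ y, J' (J y) = y) :
    ∃ (e : ℕ → X) (f : ℕ → X →L[ℂ] ℂ),
      (∀ i j, f i (e j) = if i = j then 1 else 0) ∧
      ∀ x, Tendsto (fun N => ∑ k ∈ Finset.range N, f k x • e k) atTop (𝓝 x) := by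
  obtain ⟨e', f', hbi, hV, hlim⟩ := S.exists_basis
  refine ⟨fun n => S.Psi J J' (e' n), fun n => (f' n).comp (S.Phi J J'), ?_, ?_⟩
  · intro i j
    rw [ContinuousLinearMap.comp_apply, S.Phi_Psi hJ _ (hV j)]
    exact hbi i j
  · intro x
    have h := hlim _ (S.V_Phi J J' x)
    have h2 := ((S.Psi J J').continuous.tendsto _).comp h
    rw [S.Psi_Phi hJ x] at h2
    refine h2.congr ?_
    intro N
    simp only [Function.comp, map_sum, map_smul, ContinuousLinearMap.comp_apply]

end Sys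

end Pool.Agent.Helper90.HBasis
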